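import Pool.Agent.H743.X17.IsoStm
import Pool.Agent.H743.X17.MIN

/-!
# I17 IMIN: the equations WJ j m are globally minimal (adapted from `Pool.Agent.H743.X17.MIN`)
-/

set_option autoImplicit false

namespace Pool.Agent.H122.I17

open Pool.Agent.H743.X17
open Pool.Agent.H743.X17.QMIN (min_of' dvd_of_mul)
open Pool.Agent.W97.MT (IsGloballyMinimal)
open WeierstrassCurve

/-- an odd prime does not occur in the denominator -/
theorem no_odd {m κ : ℤ} (hκ : κ ∣ 17 ^ 4) (hsq : Squarefree m) {p : ℕ} (hp : p.Prime) (e : ℤ)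
    (he : e = 1 ∨ p ≠ 2 ∧ e = 2 ^ 12)
    (h : (p : ℤ) ^ 12 ∣ e * (κ * m ^ 6)) : False := by
  have := Fact.mk hp
  have hpZ : Prime (p : ℤ) := Nat.prime_iff_prime_int.1 hp
  have h1 : (p : ℤ) ^ 12 ∣ 17 ^ 4 * m ^ 6 := by
    have h0 : (p : ℤ) ^ 12 ∣ κ * m ^ 6 := by
      rcases he with rfl | ⟨hp2, rfl⟩
      · simpa using h
      · refine IsCoprime.dvd_of_dvd_mul_left ?_ h
        apply IsCoprime.pow
        have := (Nat.coprime_primes hp Nat.prime_two).2 hp2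
        exact_mod_cast Nat.isCoprime_iff_coprime.2 this
    exact h0.trans (mul_dvd_mul_right hκ _)
  have hm0 : m.natAbs ≠ 0 := Int.natAbs_ne_zero.2 hsq.ne_zero
  have hsq' : Squarefree m.natAbs := Int.squarefree_natAbs.2 hsq
  have h2 : p ^ 12 ∣ 17 ^ 4 * m.natAbs ^ 6 := by
    have := Int.natAbs_dvd_natAbs.2 h1
    rw [Int.natAbs_mul, Int.natAbs_pow, Int.natAbs_pow, Int.natAbs_pow] at this
    simpa using this
  have h3 : 12 ≤ padicValNat p (17 ^ 4 * m.natAbs ^ 6) :=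
    (padicValNat_dvd_iff_le (mul_ne_zero (by norm_num) (pow_ne_zero 6 hm0))).1 h2
  rw [padicValNat.mul (by norm_num) (pow_ne_zero 6 hm0), padicValNat.pow, padicValNat.pow] at h3
  have h4 : padicValNat p m.natAbs ≤ 1 := by
    by_contra h5
    push Not at h5
    have h6 : p ^ 2 ∣ m.natAbs := (padicValNat_dvd_iff_le hm0).2 h5
    rw [pow_two] at h6
    exact hp.one_lt.ne' (Nat.isUnit_iff.1 (hsq' p h6))
  have h5 : padicValNat p 17 ≤ 1 := by
    by_contra h5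
    push Not at h5
    have h6 : p ^ 2 ∣ 17 := (padicValNat_dvd_iff_le (by norm_num)).2 h5
    have h7 : p < 5 := by
      by_contra h8
      push Not at h8
      have h9 := Nat.le_of_dvd (by norm_num) h6
      have h10 : 5 ^ 2 ≤ p ^ 2 := Nat.pow_le_pow_left h8 2
      norm_num at h10
      omega
    have h8 := hp.two_le
    interval_cases p <;> revert h6 <;> decide
  omega

theorem gen1 {W : WeierstrassCurve ℤ} {m κ : ℤ} (hκ : κ ∣ 17 ^ 4) (hsq : Squarefree m)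
    (hΔ : W.Δ = κ * m ^ 6) : IsGloballyMinimal W := by
  have hm0 : m ≠ 0 := hsq.ne_zero
  have hκ0 : κ ≠ 0 := by
    rintro rfl
    rw [zero_dvd_iff] at hκ
    norm_num at hκ
  refine min_of' (by rw [hΔ]; exact mul_ne_zero hκ0 (pow_ne_zero 6 hm0)) ?_
  intro W' n d hd hc k1 _ _
  by_contra hd1
  obtain ⟨p, hp, hpd⟩ := Int.exists_prime_and_dvd (n := d) (by
    intro h
    have := Int.natAbs_eq_iff.1 h
    omega)
  have hp' : (p.natAbs).Prime := Int.prime_iff_natAbs_prime.1 hp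
  have h1 : (p.natAbs : ℤ) ∣ d := Int.natAbs_dvd.2 hpd
  have h2 := (pow_dvd_pow_of_dvd h1 12).trans (dvd_of_mul hc 12 k1)
  rw [hΔ] at h2
  exact no_odd hκ hsq hp' 1 (Or.inl rfl) (by simpa using h2)

theorem gen2 {W : WeierstrassCurve ℤ} {m κ κ4 κ6 : ℤ} (hκ : κ ∣ 17 ^ 4) (hsq : Squarefree m)
    (hk4 : IsCoprime 2 κ4) (hk6 : ∃ q : ℤ, κ6 = 4 * q + 3)
    (hΔ : W.Δ = 2 ^ 12 * (κ * m ^ 6)) (hc4 : W.c₄ = 16 * (κ4 * m ^ 2))
    (hc6 : W.c₆ = 64 * (κ6 * m ^ 3)) (h4 : ¬ m % 4 = 1) : IsGloballyMinimal W := by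
  have hm0 : m ≠ 0 := hsq.ne_zero
  have hκ0 : κ ≠ 0 := by
    rintro rfl
    rw [zero_dvd_iff] at hκ
    norm_num at hκ
  have hk16 : IsCoprime (16 : ℤ) κ4 := by
    have := hk4.pow_left (m := 4)
    norm_num at this
    exact this
  refine min_of' (by rw [hΔ]; exact mul_ne_zero (by norm_num) (mul_ne_zero hκ0 (pow_ne_zero 6 hm0))) ?_
  intro W' n d hd hc k1 k4 k6
  rw [hΔ] at k1
  rw [hc4] at k4
  rw [hc6] at k6
  -- `d` has no odd prime factor
  have hodd : ∀ p : ℤ, Prime p → p ∣ d → p.natAbs = 2 := by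
    intro p hp hpd
    by_contra hp2
    have hp' : (p.natAbs).Prime := Int.prime_iff_natAbs_prime.1 hp
    have h1 : (p.natAbs : ℤ) ∣ d := Int.natAbs_dvd.2 hpd
    have h2 := (pow_dvd_pow_of_dvd h1 12).trans (dvd_of_mul hc 12 k1)
    exact no_odd hκ hsq hp' _ (Or.inr ⟨hp2, rfl⟩) h2
  by_contra hd1
  obtain ⟨p, hp, hpd⟩ := Int.exists_prime_and_dvd (n := d) (by
    intro h
    have := Int.natAbs_eq_iff.1 h
    omega)
  have h2d : (2 : ℤ) ∣ d := by
    have h1 := hodd p hp hpd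
    have h2 : (p.natAbs : ℤ) ∣ d := Int.natAbs_dvd.2 hpd
    rw [h1] at h2
    exact h2
  obtain ⟨e, rfl⟩ := h2d
  have h4m : ¬ (4 : ℤ) ∣ m := by
    intro h
    have := hsq 2 (by simpa using h)
    exact absurd (Int.isUnit_iff.1 this) (by norm_num)
  -- `e` is odd
  have he2 : ¬ (2 : ℤ) ∣ e := by
    rintro ⟨f, rfl⟩
    have h1 := dvd_of_mul hc 4 k4
    have h2 : (16 : ℤ) * 16 ∣ 16 * (κ4 * m ^ 2) := by
      refine Dvd.dvd.trans ⟨f ^ 4, ?_⟩ h1
      ring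
    have h3 : (16 : ℤ) ∣ κ4 * m ^ 2 := (mul_dvd_mul_iff_left (by norm_num)).1 h2
    have h5 : (16 : ℤ) ∣ m ^ 2 := IsCoprime.dvd_of_dvd_mul_left hk16 h3
    have h6 : (4 : ℤ) ∣ m := by
      have h7 : (4 : ℤ) ^ 2 ∣ m ^ 2 := by norm_num; exact h5
      exact (Int.pow_dvd_pow_iff (by norm_num)).1 h7
    exact h4m h6
  have he1 : e = 1 := by
    by_contra he1
    obtain ⟨q, hq, hqe⟩ := Int.exists_prime_and_dvd (n := e) (by
      intro h
      have := Int.natAbs_eq_iff.1 h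
      omega)
    have h1 := hodd q hq (hqe.mul_left 2)
    have h2 : (q.natAbs : ℤ) ∣ e := Int.natAbs_dvd.2 hqe
    rw [h1] at h2
    exact he2 h2
  subst he1
  -- `n` is odd
  have hn : n % 2 = 1 := by
    rcases Int.emod_two_eq_zero_or_one n with h | h
    · exfalso
      obtain ⟨a, b, hab⟩ := hc
      obtain ⟨c, rfl⟩ : ∃ c : ℤ, n = 2 * c := ⟨n / 2, by omega⟩
      have h2 : (2 : ℤ) ∣ 1 := ⟨a * c + b, by linear_combination -hab⟩
      norm_num at h2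
    · exact h
  obtain ⟨c, rfl⟩ : ∃ c : ℤ, n = 2 * c + 1 := ⟨n / 2, by omega⟩
  have q4 : W'.c₄ = (2 * c + 1) ^ 4 * (κ4 * m ^ 2) := by linarith
  have q6 : W'.c₆ = (2 * c + 1) ^ 6 * (κ6 * m ^ 3) := by linarith
  have d4 : W'.c₄ = W'.b₂ ^ 2 - 24 * W'.b₄ := rfl
  have d6 : W'.c₆ = -W'.b₂ ^ 3 + 36 * W'.b₂ * W'.b₄ - 216 * W'.b₆ := rfl
  have e2 : W'.b₂ = W'.a₁ ^ 2 + 4 * W'.a₂ := rfl
  have e4 : W'.b₄ = 2 * W'.a₄ + W'.a₁ * W'.a₃ := rfl
  rcases Int.emod_two_eq_zero_or_one W'.a₁ with ha | ha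
  · obtain ⟨a, ha'⟩ : ∃ a : ℤ, W'.a₁ = 2 * a := ⟨W'.a₁ / 2, by omega⟩
    -- 16 divides c₄'
    have h16 : (16 : ℤ) ∣ W'.c₄ := by
      refine ⟨(a ^ 2 + W'.a₂) ^ 2 - 3 * (W'.a₄ + a * W'.a₃), ?_⟩
      rw [d4, e2, e4, ha']
      ring
    rw [q4] at h16
    have h7 : (16 : ℤ) ∣ m ^ 2 := by
      have h8 : IsCoprime (16 : ℤ) ((2 * c + 1) ^ 4 * κ4) := by
        have h9 : IsCoprime (2 : ℤ) (2 * c + 1) := ⟨-c, 1, by ring⟩
        have h10 : IsCoprime (2 : ℤ) ((2 * c + 1) ^ 4 * κ4) :=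
          (h9.pow_right).mul_right hk4
        have h11 := h10.pow_left (m := 4)
        norm_num at h11
        exact h11
      refine h8.dvd_of_dvd_mul_left ?_
      rw [mul_assoc]
      exact h16
    have h6 : (4 : ℤ) ∣ m := by
      have h7' : (4 : ℤ) ^ 2 ∣ m ^ 2 := by norm_num; exact h7
      exact (Int.pow_dvd_pow_iff (by norm_num)).1 h7'
    exact h4m h6
  · obtain ⟨a, ha'⟩ : ∃ a : ℤ, W'.a₁ = 2 * a + 1 := ⟨W'.a₁ / 2, by omega⟩
    -- c₄' is odd, so m is odd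
    have hb : ∃ t : ℤ, W'.b₂ = 4 * t + 1 := ⟨a ^ 2 + a + W'.a₂, by rw [e2, ha']; ring⟩
    obtain ⟨t, ht⟩ := hb
    have hmodd : m % 2 = 1 := by
      rcases Int.emod_two_eq_zero_or_one m with h | h
      · exfalso
        obtain ⟨s, rfl⟩ : ∃ s : ℤ, m = 2 * s := ⟨m / 2, by omega⟩
        have h1 : (4 * t + 1) ^ 2 - 24 * W'.b₄ = (2 * c + 1) ^ 4 * (κ4 * (2 * s) ^ 2) := by
          rw [← q4, d4, ht]
        have h2 : (2 : ℤ) ∣ 1 := by
          refine ⟨(2 * c + 1) ^ 4 * κ4 * (2 * s ^ 2) + 12 * W'.b₄ - 8 * t ^ 2 - 4 * t, ?_⟩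
          linear_combination h1
        norm_num at h2
      · exact h
    obtain ⟨s, rfl⟩ : ∃ s : ℤ, m = 4 * s + 3 := ⟨m / 4, by clear h4m; omega⟩
    have h1 : -(4 * t + 1) ^ 3 + 36 * (4 * t + 1) * W'.b₄ - 216 * W'.b₆ =
        (2 * c + 1) ^ 6 * (κ6 * (4 * s + 3) ^ 3) := by
      rw [← q6, d6, ht]
    obtain ⟨q, rfl⟩ := hk6
    have h2 : (4 : ℤ) ∣ 2 := by
      have e1 : (2 * c + 1) ^ 6 = 4 * (16 * c ^ 6 + 48 * c ^ 5 + 60 * c ^ 4 + 40 * c ^ 3 +
          15 * c ^ 2 + 3 * c) + 1 := by ring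
      have e2 : (4 * q + 3) * (4 * s + 3) ^ 3 = 4 * ((4 * q + 3) * (16 * s ^ 3 + 36 * s ^ 2 + 27 * s) +
          27 * q + 20) + 1 := by ring
      rw [e1, e2] at h1
      generalize 16 * c ^ 6 + 48 * c ^ 5 + 60 * c ^ 4 + 40 * c ^ 3 + 15 * c ^ 2 + 3 * c = X at h1
      generalize (4 * q + 3) * (16 * s ^ 3 + 36 * s ^ 2 + 27 * s) + 27 * q + 20 = Y at h1
      refine ⟨- (16 * t ^ 3 + 12 * t ^ 2 + 3 * t) + 9 * (4 * t + 1) * W'.b₄ - 54 * W'.b₆ -
        (4 * X * Y + X + Y), ?_⟩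
      linear_combination -h1
    norm_num at h2

theorem t_IMIN : S_IMIN := by
  intro j m hsq
  unfold WJ
  split_ifs with h4
  · obtain ⟨k, rfl⟩ : ∃ k : ℤ, m = 4 * k + 1 := ⟨m / 4, by omega⟩
    fin_cases j
    · have h1 : (33 * (4 * k + 1) - 1) / 4 = 33 * k + 8 := by omega
      refine gen1 (κ := -17 ^ 4) (by norm_num) hsq ?_
      simp only [be, ga, de, h1, WeierstrassCurve.Δ, WeierstrassCurve.b₂,
        WeierstrassCurve.b₄, WeierstrassCurve.b₆, WeierstrassCurve.b₈]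
      ring
    · have h1 : (9 * (4 * k + 1) - 1) / 4 = 9 * k + 2 := by omega
      refine gen1 (κ := 17) (by norm_num) hsq ?_
      simp only [be, ga, de, h1, WeierstrassCurve.Δ, WeierstrassCurve.b₂,
        WeierstrassCurve.b₄, WeierstrassCurve.b₆, WeierstrassCurve.b₈]
      ring
    · have h1 : (-63 * (4 * k + 1) - 1) / 4 = -63 * k - 16 := by omega
      refine gen1 (κ := 17) (by norm_num) hsq ?_
      simp only [be, ga, de, h1, WeierstrassCurve.Δ, WeierstrassCurve.b₂,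
        WeierstrassCurve.b₄, WeierstrassCurve.b₆, WeierstrassCurve.b₈]
      ring
  · fin_cases j
    · refine gen2 (κ := -17 ^ 4) (κ4 := 33) (κ6 := 12015) (by norm_num) hsq
        (by norm_num) ⟨3003, by norm_num⟩ ?_ ?_ ?_ h4
      all_goals
        simp only [be, ga, de, WeierstrassCurve.Δ, WeierstrassCurve.b₂,
          WeierstrassCurve.b₄, WeierstrassCurve.b₆, WeierstrassCurve.b₈, WeierstrassCurve.c₄,
          WeierstrassCurve.c₆]
        ring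
    · refine gen2 (κ := 17) (κ4 := 33) (κ6 := -81) (by norm_num) hsq
        (by norm_num) ⟨-21, by norm_num⟩ ?_ ?_ ?_ h4
      all_goals
        simp only [be, ga, de, WeierstrassCurve.Δ, WeierstrassCurve.b₂,
          WeierstrassCurve.b₄, WeierstrassCurve.b₆, WeierstrassCurve.b₈, WeierstrassCurve.c₄,
          WeierstrassCurve.c₆]
        ring
    · refine gen2 (κ := 17) (κ4 := 4353) (κ6 := 287199) (by norm_num) hsq
        (by norm_num) ⟨71799, by norm_num⟩ ?_ ?_ ?_ h4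
      all_goals
        simp only [be, ga, de, WeierstrassCurve.Δ, WeierstrassCurve.b₂,
          WeierstrassCurve.b₄, WeierstrassCurve.b₆, WeierstrassCurve.b₈, WeierstrassCurve.c₄,
          WeierstrassCurve.c₆]
        ring

end Pool.Agent.H122.I17
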